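import Pool.Agent.H28.L2Ops

namespace Pool.Agent.Results.MP_3abc29_an.Counter

open Polynomial Complex Pool.Agent.H28.L2Ops

/-- The basis vectors of `ℓ²`. -/
noncomputable def bas (k : ℕ) : L2 ℂ := lp.single 2 k 1

/-- The Fourier coefficients of `F` on the unit circle. -/
noncomputable def coef (F : ℂ → ℂ) (n : ℤ) : ℂ :=
  fourierCoeff (fun t : UnitAddCircle => F (AddCircle.toCircle t)) n

/-- `T` is the Toeplitz operator with symbol `F`: its matrix is `F̂(j - k)`. -/
def IsToeplitz (F : ℂ → ℂ) (T : L2 ℂ → L2 ℂ) : Prop :=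
  ∀ j k : ℕ, T (bas k) j = coef F ((j : ℤ) - k)

/-- `r(T)` for `r = a / b`. -/
noncomputable def ratOp {A : Type} [Ring A] [Algebra ℂ A] (a b : ℂ[X]) (T : A) : A :=
  aeval T a * Ring.inverse (aeval T b)

/-- The spectrum of `T` is not a spectral set for `T`. -/
def NotSpectral {E : Type} [NormedAddCommGroup E] [NormedSpace ℂ E] (T : E →L[ℂ] E) : Prop :=
  ∃ (a b : ℂ[X]) (M : ℝ), (∀ z ∈ spectrum ℂ T, b.eval z ≠ 0 ∧ ‖a.eval z / b.eval z‖ ≤ M) ∧
    M < ‖ratOp a b T‖

/-- The values of `F` on the unit circle lie in a simple closed curve. -/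
def InJordan (F : ℂ → ℂ) : Prop :=
  ∃ γ : Circle → ℂ, Continuous γ ∧ Function.Injective γ ∧ ∀ z : Circle, F z ∈ Set.range γ

noncomputable def backL : L2 ℂ →ₗ[ℂ] L2 ℂ where
  toFun x := ⟨fun n => x (n + 1), (mem_iff _).2 ((summable_nat_add_iff 1).2 (summ x))⟩
  map_add' _ _ := rfl
  map_smul' _ _ := rfl

lemma back_le (x : L2 ℂ) : ‖backL x‖ ≤ 1 * ‖x‖ := by
  rw [one_mul, ← sq_le_sq₀ (norm_nonneg _) (norm_nonneg _), normsq, normsq,
    (summ x).tsum_eq_zero_add]
  exact le_add_of_nonneg_left (by positivity)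

noncomputable def V : L2 ℂ →L[ℂ] L2 ℂ := backL.mkContinuous 1 back_le

noncomputable def U : L2 ℂ →L[ℂ] L2 ℂ := shift

lemma VU : V * U = 1 := by
  ext x n
  rfl

lemma nV : ‖V‖ ≤ 1 := LinearMap.mkContinuous_norm_le _ zero_le_one _

lemma nU : ‖U‖ ≤ 1 := ContinuousLinearMap.opNorm_le_bound _ zero_le_one fun x => by
  rw [one_mul]; exact (norm_shift x).le

noncomputable def T : L2 ℂ →L[ℂ] L2 ℂ := U + V + I • (U * U + V * V)

lemma T_apply (x : L2 ℂ) (n : ℕ) :
    T x n = shift x n + x (n + 1) + I * (shift (shift x) n + x (n + 2)) := rfl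

lemma unit {A : L2 ℂ →L[ℂ] L2 ℂ} (hA : ‖A‖ ≤ 1) {a : ℂ} (ha : ‖a‖ < 1) : IsUnit (1 - a • A) := by
  refine (Units.oneSub _ ?_).isUnit
  rw [norm_smul]
  exact (mul_le_of_le_one_right (norm_nonneg _) hA).trans_lt ha

lemma jouk {w : ℂ} (hw : ∀ t : ℝ, w ≠ t) : ∃ a : ℂ, a ≠ 0 ∧ ‖a‖ < 1 ∧ a ^ 2 + 1 = w * a := by
  obtain ⟨d, hd⟩ := IsAlgClosed.exists_pow_nat_eq (w ^ 2 - 4) two_pos
  have h1 : (w + d) / 2 * ((w - d) / 2) = 1 := by linear_combination (-1 / 4) * hd
  have h2 : ∀ a b : ℂ, a * b = 1 → a + b = w → ‖a‖ < 1 →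
      ∃ a : ℂ, a ≠ 0 ∧ ‖a‖ < 1 ∧ a ^ 2 + 1 = w * a := fun a b h h' ha =>
    ⟨a, left_ne_zero_of_mul_eq_one h, ha, by rw [← h', ← h]; ring⟩
  have h3 := congrArg norm h1
  rw [norm_mul, norm_one] at h3
  rcases lt_trichotomy ‖(w + d) / 2‖ 1 with h | h | h
  · exact h2 _ _ h1 (by ring) h
  · exfalso
    have h4 : (w - d) / 2 = (starRingEnd ℂ) ((w + d) / 2) := by
      rw [← inv_eq_of_mul_eq_one_right h1, Complex.inv_def, Complex.normSq_eq_norm_sq, h]
      simp
    refine hw (2 * ((w + d) / 2).re) ?_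
    rw [← Complex.add_conj, ← h4]
    ring
  · exact h2 ((w - d) / 2) ((w + d) / 2) (by rw [mul_comm, h1]) (by ring)
      (by nlinarith [norm_nonneg ((w - d) / 2)])

lemma spec {l : ℂ} (hl : l ∈ spectrum ℂ T) : ∃ t : ℝ, l = t + I * (t ^ 2 - 2) := by
  by_contra h
  push Not at h
  obtain ⟨d, hd⟩ := IsAlgClosed.exists_pow_nat_eq (7 - 4 * I * l) two_pos
  have hI := I_mul_I
  obtain ⟨a, a0, a1, ha⟩ := jouk (w := (I + d) / 2) fun t ht => h t (by
    rw [← ht]; linear_combination (-I / 4) * hd + (l - d / 2 - I / 4) * hI)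
  obtain ⟨b, b0, b1, hb⟩ := jouk (w := (I - d) / 2) fun t ht => h t (by
    rw [← ht]; linear_combination (-I / 4) * hd + (l + d / 2 - I / 4) * hI)
  have e1 : (a + b) * (1 + a * b) = I * (a * b) := by linear_combination b * ha + a * hb
  have e2 : 1 + (a + b) ^ 2 + (a * b) ^ 2 = I * l * (a * b) := by
    linear_combination (b ^ 2 + 1) * ha + (I + d) / 2 * a * hb - (a * b / 4) * hd +
      (a * b / 4) * hI
  have key : (1 - a • V) * (1 - b • V) * ((1 - a • U) * (1 - b • U)) =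
      (I * (a * b)) • (algebraMap ℂ _ l - T) := by
    have h1 : V * (V * U) = V := by rw [VU, mul_one]
    have h2 : V * (U * U) = U := by rw [← mul_assoc, VU, one_mul]
    have h3 : V * (V * (U * U)) = 1 := by rw [h2, VU]
    simp only [T, Algebra.algebraMap_eq_smul_one, mul_sub, sub_mul, mul_one, one_mul,
      smul_mul_assoc, mul_smul_comm, mul_assoc, VU, h1, h2, h3]
    match_scalars
    · linear_combination e2
    · linear_combination -e1
    · linear_combination (a * b) * hI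
    · linear_combination -e1
    · linear_combination (a * b) * hI
  have hu := ((unit nV a1).mul (unit nV b1)).mul ((unit nU a1).mul (unit nU b1))
  rw [key, Algebra.smul_def] at hu
  exact hl ((Commute.isUnit_mul_iff (Algebra.commutes _ _)).1 hu).2

lemma spec_norm {l : ℂ} (hl : l ∈ spectrum ℂ T) : 7 / 4 ≤ ‖l‖ ^ 2 := by
  obtain ⟨t, rfl⟩ := spec hl
  rw [← Complex.normSq_eq_norm_sq, Complex.normSq_apply]
  simp only [add_re, ofReal_re, mul_re, I_re, sub_re, zero_mul, I_im, sub_im, one_mul, add_im,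
    ofReal_im, mul_im, ← ofReal_pow, re_ofNat, im_ofNat]
  nlinarith [sq_nonneg (t ^ 2 - 3 / 2)]

lemma nsq (x : L2 ℂ) (h : ∀ n, x (n + 4) = 0) :
    ‖x‖ ^ 2 = ‖x 0‖ ^ 2 + ‖x 1‖ ^ 2 + ‖x 2‖ ^ 2 + ‖x 3‖ ^ 2 := by
  rw [normsq, ← (summ x).sum_add_tsum_nat_add 4]
  simp [h, Finset.sum_range_succ]

noncomputable def x0 : L2 ℂ := lp.single 2 0 1 + lp.single 2 1 (-I)

lemma x0_apply (n : ℕ) : x0 n = if n = 0 then 1 else if n = 1 then -I else 0 := by
  simp only [x0, lp.coeFn_add, Pi.add_apply, lp.single_apply, Pi.single_apply]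
  split_ifs <;> simp_all

lemma n1 : ‖x0‖ ^ 2 = 2 := by
  rw [nsq _ fun n => by simp [x0_apply]]
  simp [x0_apply]
  norm_num

lemma n2 : ‖T x0‖ ^ 2 = 3 := by
  rw [nsq _ fun n => by simp [T_apply, x0_apply]]
  simp [T_apply, x0_apply]
  norm_num

noncomputable def sym (z : ℂ) : ℂ := (C I * X ^ 4 + X ^ 3 + X + C I).eval z / (X ^ 2).eval z

lemma sym_eq (z : Circle) : sym z = z + (z : ℂ)⁻¹ + I * (z ^ 2 + (z : ℂ)⁻¹ ^ 2) := by
  have := z.coe_ne_zero
  simp only [sym, eval_add, eval_mul, eval_C, eval_pow, eval_X]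
  field_simp
  ring

lemma toep : IsToeplitz sym T := by
  have e : (fun t : UnitAddCircle => sym (AddCircle.toCircle t)) =
      (fourier 1 : UnitAddCircle → ℂ) + (fourier (-1) : UnitAddCircle → ℂ) +
        I • ((fourier 2 : UnitAddCircle → ℂ) + (fourier (-2) : UnitAddCircle → ℂ)) := by
    funext t
    have h1 : ∀ n : ℤ, fourier n t = (AddCircle.toCircle t : ℂ) ^ n := fun n => by
      rw [fourier_apply, AddCircle.toCircle_zsmul]; simp
    simp [sym_eq, h1, zpow_ofNat, mul_add]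
  have hi : ∀ n : ℤ, MeasureTheory.Integrable (fourier n : UnitAddCircle → ℂ)
      AddCircle.haarAddCircle := fun n =>
    (fourier n).continuous.integrable_of_hasCompactSupport (HasCompactSupport.of_compactSpace _)
  intro j k
  rw [coef, bas, e, fourierCoeff.add ((hi _).add (hi _)) (((hi _).add (hi _)).smul I),
    fourierCoeff.add (hi _) (hi _), Pi.add_apply, fourierCoeff.const_smul,
    fourierCoeff.add (hi _) (hi _)]
  simp only [fourierCoeff_fourier, Pi.add_apply, Pi.single_apply, T_apply, smul_eq_mul]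
  have s1 : ∀ n : ℕ, (lp.single 2 k (1 : ℂ) : L2 ℂ) n = if n = k then 1 else 0 := fun n => by
    simp [lp.single_apply, Pi.single_apply]
  congr 1
  · congr 1
    · cases j with
      | zero => rw [shift_zero, if_neg (by omega)]
      | succ j => rw [shift_succ, s1]; exact if_congr (by omega) rfl rfl
    · rw [s1]; exact if_congr (by omega) rfl rfl
  · congr 2
    · rcases j with _ | _ | j
      · rw [shift_zero, if_neg (by omega)]
      · rw [shift_succ, shift_zero, if_neg (by omega)]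
      · rw [shift_succ, shift_succ, s1]; exact if_congr (by omega) rfl rfl
    · rw [s1]; exact if_congr (by omega) rfl rfl

lemma jordan : InJordan sym := by
  have hz : ∀ z : Circle, (z : ℂ).re ^ 2 + (z : ℂ).im ^ 2 = 1 := fun z => by
    have := z.normSq_coe
    rw [Complex.normSq_apply] at this
    linarith
  refine ⟨fun z => ((2 * (z : ℂ).re : ℝ) : ℂ) +
    ((4 * (z : ℂ).re ^ 2 - 2 + max (z : ℂ).im 0 : ℝ) : ℂ) * I, by fun_prop, fun z w h => ?_,
    fun z => ?_⟩
  · have h1 := congrArg re h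
    have h2 := congrArg im h
    simp only [add_re, ofReal_re, mul_re, I_re, mul_zero, ofReal_im, I_im, mul_one, sub_self,
      add_zero, add_im, mul_im, zero_add] at h1 h2
    have h3 : (z : ℂ).re = (w : ℂ).re := by linarith
    have h4 : max (z : ℂ).im 0 = max (w : ℂ).im 0 := by rw [h3] at h2; linarith
    have h5 : (z : ℂ).im ^ 2 = (w : ℂ).im ^ 2 := by
      have := hz z
      rw [h3] at this
      linarith [hz w]
    refine Circle.ext (Complex.ext h3 ?_)
    rcases sq_eq_sq_iff_eq_or_eq_neg.1 h5 with h6 | h6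
    · exact h6
    · rw [h6] at h4 ⊢
      rcases le_total 0 (w : ℂ).im with h7 | h7
      · rw [max_eq_right (by linarith), max_eq_left h7] at h4
        linarith
      · rw [max_eq_left (by linarith), max_eq_right h7] at h4
        linarith
  · have key : ∀ w : Circle, (w : ℂ).re = (z : ℂ).re → (w : ℂ).im ≤ 0 →
        ((2 * (w : ℂ).re : ℝ) : ℂ) + ((4 * (w : ℂ).re ^ 2 - 2 + max (w : ℂ).im 0 : ℝ) : ℂ) * I =
          sym z := by
      intro w h1 h2
      have h3 := z.coe_ne_zero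
      have h4 : (z : ℂ) + (z : ℂ)⁻¹ = ((2 * (z : ℂ).re : ℝ) : ℂ) := by
        rw [← Complex.add_conj, ← Circle.coe_inv, Circle.coe_inv_eq_conj]
      have h5 : (z : ℂ) ^ 2 + (z : ℂ)⁻¹ ^ 2 = ((z : ℂ) + (z : ℂ)⁻¹) ^ 2 - 2 := by
        field_simp
        ring
      rw [sym_eq, h5, h4, max_eq_right h2, h1]
      push_cast
      ring
    rcases le_total (z : ℂ).im 0 with h | h
    · exact ⟨z, key z rfl h⟩
    · exact ⟨z⁻¹, key _ (by simp [Circle.coe_inv_eq_conj])
        (by rw [Circle.coe_inv_eq_conj, conj_im]; linarith)⟩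

theorem result : ∃ (p q : ℂ[X]) (T : L2 ℂ →L[ℂ] L2 ℂ), (∀ z : Circle, q.eval (z : ℂ) ≠ 0) ∧
    InJordan (fun z => p.eval z / q.eval z) ∧ IsToeplitz (fun z => p.eval z / q.eval z) T ∧
    NotSpectral T := by
  refine ⟨_, _, T, fun z => by simp, jordan, toep, 1, X, √(4 / 7), fun z hz => ?_, ?_⟩
  · have h := spec_norm hz
    have h0 : z ≠ 0 := by
      rintro rfl
      norm_num at h
    refine ⟨by simpa using h0, ?_⟩
    have h1 : 0 < ‖z‖ := norm_pos_iff.2 h0
    rw [eval_one, eval_X, norm_div, norm_one, Real.le_sqrt (by positivity) (by norm_num),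
      div_pow, div_le_iff₀ (by positivity)]
    linarith
  · have hu : IsUnit T := by
      by_contra h
      have := spec_norm (l := 0) (by simpa [spectrum.mem_iff] using h)
      norm_num at this
    rw [ratOp, map_one, one_mul, aeval_X, Real.sqrt_lt' ?_]
    · have h1 : Ring.inverse T (T x0) = x0 := by
        rw [← ContinuousLinearMap.mul_apply, Ring.inverse_mul_cancel _ hu]
        rfl
      have h2 := (Ring.inverse T).le_opNorm (T x0)
      rw [h1, ← sq_le_sq₀ (norm_nonneg _) (by positivity), mul_pow, n1, n2] at h2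
      linarith
    · refine norm_pos_iff.2 fun h => ?_
      have h1 := Ring.inverse_mul_cancel _ hu
      rw [h, zero_mul] at h1
      have h2 := n1
      rw [show x0 = 0 from (congrArg (fun A : L2 ℂ →L[ℂ] L2 ℂ => A x0) h1).symm] at h2
      norm_num at h2

end Pool.Agent.Results.MP_3abc29_an.Counter
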